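import Mathlib

/-!
# Sets without differences in the mixed-sign set: the maximum is exactly `p ^ 2`

For every odd prime `p` the largest `S`-free subset of `F_p ^ 3` has exactly `p ^ 2` elements; the
plane `{(c, x, c)}` is an example. Hence there is no power saving over `p ^ 2`.
-/

set_option autoImplicit false

open Finset

namespace Pool.Agent.Results.MP_9d9710_co.ExactMaximum

/-- `P = {1, 2, …, (p - 1) / 2}` in `ZMod p`. -/
def P (p : ℕ) : Set (ZMod p) := {y | 1 ≤ y.val ∧ y.val ≤ (p - 1) / 2}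

/-- The vectors for which one coordinate is `0`, another one lies in `P` and the third one lies
in `-P`. -/
def S (p : ℕ) : Set (Fin 3 → ZMod p) :=
  {x | ∃ i j k : Fin 3, i ≠ j ∧ j ≠ k ∧ i ≠ k ∧ x i = 0 ∧ x j ∈ P p ∧ -x k ∈ P p}

/-- No difference of two elements of `A` lies in `S`. -/
def SFree (p : ℕ) (A : Finset (Fin 3 → ZMod p)) : Prop := ∀ a ∈ A, ∀ b ∈ A, a - b ∉ S p

lemma P_or_neg {p : ℕ} (hp : p.Prime) (hodd : p ≠ 2) (y : ZMod p) (hy : y ≠ 0) :
    y ∈ P p ∨ -y ∈ P p := by
  have : NeZero p := ⟨hp.ne_zero⟩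
  have hp3 : p % 2 = 1 := by
    rcases hp.eq_two_or_odd with h | h
    · exact absurd h hodd
    · exact h
  have h1 : 1 ≤ y.val := Nat.one_le_iff_ne_zero.2 fun h => hy ((ZMod.val_eq_zero y).1 h)
  have h2 : y.val < p := ZMod.val_lt y
  by_cases h : y.val ≤ (p - 1) / 2
  · exact Or.inl ⟨h1, h⟩
  · right
    have : NeZero y := ⟨hy⟩
    have h3 : (-y).val = p - y.val := ZMod.val_neg_of_ne_zero y
    refine ⟨?_, ?_⟩
    · rw [h3]; omega
    · rw [h3]; omega

lemma not_both {p : ℕ} (hp : p.Prime) (y : ZMod p) (h1 : y ∈ P p)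
    (h2 : -y ∈ P p) : False := by
  have : NeZero p := ⟨hp.ne_zero⟩
  have hy : y ≠ 0 := by
    rintro rfl
    have := h1.1
    simp at this
  have : NeZero y := ⟨hy⟩
  have h3 : (-y).val = p - y.val := ZMod.val_neg_of_ne_zero y
  have h4 := h1.2
  have h5 := h2.2
  rw [h3] at h5
  have hp2 := hp.two_le
  have h6 := ZMod.val_lt y
  omega

/-- An `S`-free set has at most `p ^ 2` elements. -/
lemma upper {p : ℕ} (hp : p.Prime) (hodd : p ≠ 2) (A : Finset (Fin 3 → ZMod p))
    (hA : SFree p A) : A.card ≤ p ^ 2 := by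
  have : NeZero p := ⟨hp.ne_zero⟩
  have hinj : Set.InjOn (fun a : Fin 3 → ZMod p => (a 0, a 1 + a 2)) (A : Set (Fin 3 → ZMod p)) := by
    intro a ha b hb hab
    simp only [Prod.mk.injEq] at hab
    obtain ⟨h0, h12⟩ := hab
    by_contra hne
    have hd : a 1 - b 1 = -(a 2 - b 2) := by linear_combination h12
    have h1 : a 1 - b 1 ≠ 0 := by
      intro h
      apply hne
      have h2 : a 2 - b 2 = 0 := by
        rw [h] at hd
        exact neg_eq_zero.1 hd.symm
      funext i
      fin_cases i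
      · exact h0
      · exact sub_eq_zero.1 h
      · exact sub_eq_zero.1 h2
    rcases P_or_neg hp hodd _ h1 with h | h
    · refine hA a ha b hb ⟨0, 1, 2, by decide, by decide, by decide, ?_, ?_, ?_⟩
      · simp [h0]
      · simpa using h
      · rw [Pi.sub_apply, ← hd]; exact h
    · refine hA a ha b hb ⟨0, 2, 1, by decide, by decide, by decide, ?_, ?_, ?_⟩
      · simp [h0]
      · rw [Pi.sub_apply]
        have : a 2 - b 2 = -(a 1 - b 1) := by rw [hd]; ring
        rw [this]; exact h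
      · simpa using h
  calc A.card ≤ (univ : Finset (ZMod p × ZMod p)).card :=
        card_le_card_of_injOn _ (fun _ _ => mem_coe.2 (mem_univ _)) hinj
    _ = p ^ 2 := by
        rw [card_univ, Fintype.card_prod, ZMod.card, sq]

/-- The plane `{(c, x, c)}` is `S`-free. -/
lemma lower {p : ℕ} (hp : p.Prime) (hodd : p ≠ 2) :
    ∃ A : Finset (Fin 3 → ZMod p), SFree p A ∧ A.card = p ^ 2 := by
  classical
  have : NeZero p := ⟨hp.ne_zero⟩
  let f : ZMod p × ZMod p → (Fin 3 → ZMod p) := fun q => ![q.1, q.2, q.1]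
  have hf : Function.Injective f := by
    rintro ⟨a, b⟩ ⟨c, d⟩ h
    have h0 := congrFun h 0
    have h1 := congrFun h 1
    simp only [f, Matrix.cons_val_zero, Matrix.cons_val_one] at h0 h1
    rw [h0, h1]
  refine ⟨univ.image f, ?_, ?_⟩
  · rintro a ha b hb ⟨i, j, k, hij, hjk, hik, h0, h1, h2⟩
    obtain ⟨q, -, rfl⟩ := mem_image.1 ha
    obtain ⟨r, -, rfl⟩ := mem_image.1 hb
    have hz : (0 : ZMod p) ∉ P p := fun h => by
      have := h.1
      simp at this
    have hz' : -(0 : ZMod p) ∉ P p := by rwa [neg_zero]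
    -- the coordinates 0 and 2 of the difference are equal
    have hc : (f q - f r) 0 = (f q - f r) 2 := by simp [f]
    have key : ∀ s t : Fin 3, (f q - f r) s = (f q - f r) t → (f q - f r) s ∈ P p →
        -(f q - f r) t ∈ P p → False := by
      intro s t hst hs ht
      rw [← hst] at ht
      exact not_both hp _ hs ht
    fin_cases i <;> fin_cases j <;> fin_cases k <;> simp only [Fin.zero_eta, Fin.mk_one,
      Fin.reduceFinMk] at h0 h1 h2 hij hjk hik <;> first
      | exact absurd rfl hij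
      | exact absurd rfl hjk
      | exact absurd rfl hik
      | (rw [← hc, h0] at h1; exact hz h1)
      | (rw [← hc, h0] at h2; exact hz' h2)
      | (rw [hc, h0] at h1; exact hz h1)
      | (rw [hc, h0] at h2; exact hz' h2)
      | exact key _ _ hc h1 h2
  · rw [card_image_of_injective _ hf, card_univ, Fintype.card_prod, ZMod.card, sq]

/-- For every odd prime `p` the largest size of an `S`-free subset of `F_p ^ 3` is exactly `p ^ 2`.
Consequently there are no `δ > 0` and `p₀` such that all `S`-free sets have at most `p ^ (2 - δ)`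
elements for all primes `p ≥ p₀`. -/
theorem result :
    (∀ p : ℕ, p.Prime → p ≠ 2 →
      IsGreatest {n : ℕ | ∃ A : Finset (Fin 3 → ZMod p), SFree p A ∧ A.card = n} (p ^ 2)) ∧
    ¬ ∃ δ : ℝ, 0 < δ ∧ ∃ p₀ : ℕ, ∀ p : ℕ, p.Prime → p ≠ 2 → p₀ ≤ p →
      ∀ A : Finset (Fin 3 → ZMod p), SFree p A → (A.card : ℝ) ≤ (p : ℝ) ^ (2 - δ) := by
  constructor
  · intro p hp hodd
    refine ⟨lower hp hodd, ?_⟩
    rintro n ⟨A, hA, rfl⟩
    exact upper hp hodd A hA
  · rintro ⟨δ, hδ, p₀, h⟩
    obtain ⟨p, hp1, hp⟩ := Nat.exists_infinite_primes (max p₀ 3)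
    have hp3 : 3 ≤ p := (le_max_right _ _).trans hp1
    obtain ⟨A, hA, hcard⟩ := lower hp (by omega)
    have h1 := h p hp (by omega) ((le_max_left _ _).trans hp1) A hA
    rw [hcard] at h1
    have h2 : (p : ℝ) ^ (2 - δ) < (p : ℝ) ^ (2 : ℝ) := by
      apply Real.rpow_lt_rpow_of_exponent_lt
      · exact_mod_cast (by omega : 1 < p)
      · linarith
    have h3 : (p : ℝ) ^ (2 : ℝ) = ((p ^ 2 : ℕ) : ℝ) := by
      rw [Real.rpow_two]; push_cast; ring
    linarith

end Pool.Agent.Results.MP_9d9710_co.ExactMaximum
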