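import Pool.Agent.R99.GL

/-!
# A power saving for the strict version of the modular problem

If, in addition to the mixed-sign differences, differences of two distinct elements with two
coordinates equal to `0` are excluded (as they are in the integer problem), then there is a power
saving: `|A| ≤ p ^ (2 - δ)` for all large primes `p`.
-/

set_option autoImplicit false

open Finset

namespace Pool.Agent.Results.MP_9d9710_co.StrictVersion

/-- `P = {1, 2, …, (p - 1) / 2}` in `ZMod p`. -/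
def P (p : ℕ) : Set (ZMod p) := {y | 1 ≤ y.val ∧ y.val ≤ (p - 1) / 2}

/-- The vectors for which one coordinate is `0`, another one lies in `P` and the third one lies
in `-P`. -/
def S (p : ℕ) : Set (Fin 3 → ZMod p) :=
  {x | ∃ i j k : Fin 3, i ≠ j ∧ j ≠ k ∧ i ≠ k ∧ x i = 0 ∧ x j ∈ P p ∧ -x k ∈ P p}

/-- The vectors with at least two coordinates equal to `0`. -/
def Axes (p : ℕ) : Set (Fin 3 → ZMod p) := {x | ∃ i j : Fin 3, i ≠ j ∧ x i = 0 ∧ x j = 0}

/-- No difference of two distinct elements of `A` lies in `S` or in `Axes`. -/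
def StrictlyFree (p : ℕ) (A : Finset (Fin 3 → ZMod p)) : Prop :=
  ∀ a ∈ A, ∀ b ∈ A, a ≠ b → a - b ∉ S p ∧ a - b ∉ Axes p

section

variable {p : ℕ}

/-- the block of a residue: blocks of length `N = (p + 1) / 2` -/
def blk (p : ℕ) (y : ZMod p) : Bool := decide ((p + 1) / 2 ≤ y.val)

/-- the position of a residue inside its block -/
def pos (p : ℕ) (y : ZMod p) : ℕ := if (p + 1) / 2 ≤ y.val then y.val - (p + 1) / 2 else y.val

lemma pos_lt (hp : p.Prime) (y : ZMod p) : pos p y < (p + 1) / 2 := by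
  have : NeZero p := ⟨hp.ne_zero⟩
  have h := ZMod.val_lt y
  have := hp.two_le
  unfold pos
  split_ifs <;> omega

lemma val_diff (hp : p.Prime) {y z : ZMod p} (hb : blk p y = blk p z) :
    (pos p z < pos p y → z.val < y.val ∧ y.val - z.val < (p + 1) / 2) ∧
    (pos p y = pos p z → y = z) := by
  have : NeZero p := ⟨hp.ne_zero⟩
  have h1 := ZMod.val_lt y
  have h2 := ZMod.val_lt z
  have hy := pos_lt hp y
  have hz := pos_lt hp z
  have hb' : (p + 1) / 2 ≤ y.val ↔ (p + 1) / 2 ≤ z.val := by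
    unfold blk at hb
    exact decide_eq_decide.1 hb
  unfold pos at *
  constructor
  · intro h
    split_ifs at * <;> omega
  · intro h
    apply ZMod.val_injective p
    split_ifs at * <;> omega

lemma sub_mem_P (hp : p.Prime) (hodd : p ≠ 2) {y z : ZMod p} (hb : blk p y = blk p z)
    (h : pos p z < pos p y) : y - z ∈ P p := by
  have : NeZero p := ⟨hp.ne_zero⟩
  obtain ⟨h1, h2⟩ := (val_diff hp hb).1 h
  have h3 : (y - z).val = y.val - z.val := ZMod.val_sub h1.le
  have hp3 : p % 2 = 1 := by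
    rcases hp.eq_two_or_odd with h | h
    · exact absurd h hodd
    · exact h
  refine ⟨?_, ?_⟩
  · rw [h3]; omega
  · rw [h3]; omega

end

lemma cube_bound {p : ℕ} (hp : p.Prime) (hodd : p ≠ 2) (δ C : ℝ)
    (hGL : ∀ N : ℕ, ∀ S : Finset (ℕ × ℕ × ℕ),
      (∀ s ∈ S, s.1 < N ∧ s.2.1 < N ∧ s.2.2 < N) →
      (∀ s ∈ S, ∀ t ∈ S, s ≠ t →
        ((t.1 < s.1 ∧ t.2.1 < s.2.1) ∨ (t.1 < s.1 ∧ t.2.2 < s.2.2) ∨
         (t.2.1 < s.2.1 ∧ t.2.2 < s.2.2) ∨
         (s.1 < t.1 ∧ s.2.1 < t.2.1) ∨ (s.1 < t.1 ∧ s.2.2 < t.2.2) ∨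
         (s.2.1 < t.2.1 ∧ s.2.2 < t.2.2))) →
      (S.card : ℝ) ≤ C * (N : ℝ) ^ (2 - δ))
    (A : Finset (Fin 3 → ZMod p)) (hA : StrictlyFree p A) (c : Fin 3 → Bool) :
    ((A.filter fun a => (fun i => blk p (a i)) = c).card : ℝ) ≤
      C * (((p + 1) / 2 : ℕ) : ℝ) ^ (2 - δ) := by
  classical
  set B := A.filter fun a => (fun i => blk p (a i)) = c with hB
  let f : (Fin 3 → ZMod p) → ℕ × ℕ × ℕ := fun a => (pos p (a 0), pos p (a 1), pos p (a 2))
  have hblk : ∀ a ∈ B, ∀ b ∈ B, ∀ i, blk p (a i) = blk p (b i) := by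
    intro a ha b hb i
    have h1 := congrFun (mem_filter.1 ha).2 i
    have h2 := congrFun (mem_filter.1 hb).2 i
    exact h1.trans h2.symm
  have hBA : ∀ a ∈ B, a ∈ A := fun a ha => (mem_filter.1 ha).1
  have hinj : Set.InjOn f (B : Set (Fin 3 → ZMod p)) := by
    intro a ha b hb h
    simp only [f, Prod.mk.injEq] at h
    funext i
    fin_cases i
    · exact (val_diff hp (hblk a ha b hb 0)).2 h.1
    · exact (val_diff hp (hblk a ha b hb 1)).2 h.2.1
    · exact (val_diff hp (hblk a ha b hb 2)).2 h.2.2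
  have h := hGL ((p + 1) / 2) (B.image f) ?_ ?_
  · rwa [card_image_of_injOn hinj] at h
  · intro s hs
    obtain ⟨a, -, rfl⟩ := mem_image.1 hs
    exact ⟨pos_lt hp _, pos_lt hp _, pos_lt hp _⟩
  · intro s hs t ht hst
    obtain ⟨a, ha, rfl⟩ := mem_image.1 hs
    obtain ⟨b, hb, rfl⟩ := mem_image.1 ht
    have hab : a ≠ b := fun h => hst (by rw [h])
    obtain ⟨hS, hX⟩ := hA a (hBA a ha) b (hBA b hb) hab
    have hb' := hblk a ha b hb
    -- comparisons of the coordinates
    have hgt : ∀ i, pos p (b i) < pos p (a i) → (a - b) i ∈ P p := fun i h =>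
      sub_mem_P hp hodd (hb' i) h
    have hlt : ∀ i, pos p (a i) < pos p (b i) → -(a - b) i ∈ P p := by
      intro i h
      rw [Pi.sub_apply, neg_sub]
      exact sub_mem_P hp hodd (hb' i).symm h
    have heq : ∀ i, pos p (a i) = pos p (b i) → (a - b) i = 0 := by
      intro i h
      rw [Pi.sub_apply, (val_diff hp (hb' i)).2 h, sub_self]
    -- no mixed difference
    have hS' : ∀ i j k : Fin 3, i ≠ j → j ≠ k → i ≠ k → pos p (a i) = pos p (b i) →
        pos p (b j) < pos p (a j) → pos p (a k) < pos p (b k) → False :=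
      fun i j k h1 h2 h3 h4 h5 h6 => hS ⟨i, j, k, h1, h2, h3, heq i h4, hgt j h5, hlt k h6⟩
    have hX' : ∀ i j : Fin 3, i ≠ j → pos p (a i) = pos p (b i) → pos p (a j) = pos p (b j) →
        False := fun i j h1 h2 h3 => hX ⟨i, j, h1, heq i h2, heq j h3⟩
    have e012 := hS' 0 1 2 (by decide) (by decide) (by decide)
    have e021 := hS' 0 2 1 (by decide) (by decide) (by decide)
    have e102 := hS' 1 0 2 (by decide) (by decide) (by decide)
    have e120 := hS' 1 2 0 (by decide) (by decide) (by decide)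
    have e201 := hS' 2 0 1 (by decide) (by decide) (by decide)
    have e210 := hS' 2 1 0 (by decide) (by decide) (by decide)
    have x01 := hX' 0 1 (by decide)
    have x02 := hX' 0 2 (by decide)
    have x12 := hX' 1 2 (by decide)
    simp only [f]
    rcases lt_trichotomy (pos p (a 0)) (pos p (b 0)) with h0 | h0 | h0 <;>
    rcases lt_trichotomy (pos p (a 1)) (pos p (b 1)) with h1 | h1 | h1 <;>
    rcases lt_trichotomy (pos p (a 2)) (pos p (b 2)) with h2 | h2 | h2 <;>
    first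
      | omega
      | exact (e012 h0 h1 h2).elim
      | exact (e021 h0 h2 h1).elim
      | exact (e102 h1 h0 h2).elim
      | exact (e120 h1 h2 h0).elim
      | exact (e201 h2 h0 h1).elim
      | exact (e210 h2 h1 h0).elim
      | exact (x01 h0 h1).elim
      | exact (x02 h0 h2).elim
      | exact (x12 h1 h2).elim

/-- **Power saving in the strict version.** There are an absolute `δ > 0` and `p₀` such that for
every prime `p ≥ p₀` every `A ⊆ F_p ^ 3` none of whose differences (of two distinct elements) lies in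
`S` or has two coordinates equal to `0` has at most `p ^ (2 - δ)` elements. -/
theorem result : ∃ δ : ℝ, 0 < δ ∧ ∃ p₀ : ℕ, ∀ p : ℕ, p.Prime → p ≠ 2 → p₀ ≤ p →
    ∀ A : Finset (Fin 3 → ZMod p), StrictlyFree p A → (A.card : ℝ) ≤ (p : ℝ) ^ (2 - δ) := by
  classical
  obtain ⟨δ₀, hδ₀, C₀, hGL₀⟩ := Pool.Agent.R99.GL.gowersLong
  -- make the exponent less than 2 and the constant positive
  set δ : ℝ := min δ₀ 1 with hδd
  have hδ : 0 < δ := lt_min hδ₀ one_pos
  have hδ1 : δ ≤ 1 := min_le_right _ _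
  set C : ℝ := max C₀ 1 with hCd
  have hC1 : 1 ≤ C := le_max_right _ _
  have hGL : ∀ N : ℕ, ∀ S : Finset (ℕ × ℕ × ℕ),
      (∀ s ∈ S, s.1 < N ∧ s.2.1 < N ∧ s.2.2 < N) →
      (∀ s ∈ S, ∀ t ∈ S, s ≠ t →
        ((t.1 < s.1 ∧ t.2.1 < s.2.1) ∨ (t.1 < s.1 ∧ t.2.2 < s.2.2) ∨
         (t.2.1 < s.2.1 ∧ t.2.2 < s.2.2) ∨
         (s.1 < t.1 ∧ s.2.1 < t.2.1) ∨ (s.1 < t.1 ∧ s.2.2 < t.2.2) ∨
         (s.2.1 < t.2.1 ∧ s.2.2 < t.2.2))) →
      (S.card : ℝ) ≤ C * (N : ℝ) ^ (2 - δ) := by
    intro N S h1 h2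
    rcases S.eq_empty_or_nonempty with rfl | ⟨s, hs⟩
    · simp only [card_empty, Nat.cast_zero]
      positivity
    · have hN : 0 < N := by have := (h1 s hs).1; omega
      have hN1 : (1 : ℝ) ≤ N := by exact_mod_cast hN
      refine (hGL₀ N S h1 h2).trans ?_
      calc C₀ * (N : ℝ) ^ (2 - δ₀) ≤ C * (N : ℝ) ^ (2 - δ₀) :=
            mul_le_mul_of_nonneg_right (le_max_left _ _) (by positivity)
        _ ≤ C * (N : ℝ) ^ (2 - δ) := by
            apply mul_le_mul_of_nonneg_left _ (by linarith)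
            apply Real.rpow_le_rpow_of_exponent_le hN1
            linarith [min_le_left δ₀ 1]
  obtain ⟨p₀, hp₀⟩ := exists_nat_ge ((8 * C) ^ (2 / δ))
  refine ⟨δ / 2, by linarith, p₀, ?_⟩
  intro p hp hodd hpp A hA
  have : NeZero p := ⟨hp.ne_zero⟩
  have hp0 : (0 : ℝ) < p := by exact_mod_cast hp.pos
  have hcard : (A.card : ℝ) ≤ ∑ c : Fin 3 → Bool,
      ((A.filter fun a => (fun i => blk p (a i)) = c).card : ℝ) := by
    have h1 : A.card = ∑ c ∈ (univ : Finset (Fin 3 → Bool)),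
        (A.filter fun a => (fun i => blk p (a i)) = c).card :=
      card_eq_sum_card_fiberwise fun _ _ => mem_coe.2 (mem_univ _)
    rw [h1]
    push_cast
    exact le_rfl
  have h2 : (A.card : ℝ) ≤ 8 * (C * (p : ℝ) ^ (2 - δ)) := by
    refine hcard.trans ?_
    have h3 : ∀ c ∈ (univ : Finset (Fin 3 → Bool)),
        ((A.filter fun a => (fun i => blk p (a i)) = c).card : ℝ) ≤ C * (p : ℝ) ^ (2 - δ) := by
      intro c _
      refine (cube_bound hp hodd δ C hGL A hA c).trans ?_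
      apply mul_le_mul_of_nonneg_left _ (by linarith)
      apply Real.rpow_le_rpow (by positivity) _ (by linarith)
      have := hp.two_le
      exact_mod_cast (by omega : (p + 1) / 2 ≤ p)
    refine (sum_le_card_nsmul _ _ _ h3).trans ?_
    simp
  have h3 : 8 * C ≤ (p : ℝ) ^ (δ / 2) := by
    have h4 : (8 * C) ^ (2 / δ) ≤ (p : ℝ) := hp₀.trans (by exact_mod_cast hpp)
    have h5 : ((8 * C) ^ (2 / δ)) ^ (δ / 2) ≤ (p : ℝ) ^ (δ / 2) :=
      Real.rpow_le_rpow (by positivity) h4 (by linarith)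
    rw [← Real.rpow_mul (by linarith)] at h5
    have h6 : 2 / δ * (δ / 2) = 1 := by field_simp
    rwa [h6, Real.rpow_one] at h5
  calc (A.card : ℝ) ≤ 8 * (C * (p : ℝ) ^ (2 - δ)) := h2
    _ = (8 * C) * (p : ℝ) ^ (2 - δ) := by ring
    _ ≤ (p : ℝ) ^ (δ / 2) * (p : ℝ) ^ (2 - δ) := mul_le_mul_of_nonneg_right h3 (by positivity)
    _ = (p : ℝ) ^ (2 - δ / 2) := by
        rw [← Real.rpow_add hp0]
        congr 1
        ring

end Pool.Agent.Results.MP_9d9710_co.StrictVersion
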